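import Pool.Agent.HExit.Final

/-!
# The exit measure of circle packed random walk need not be Hölder continuous
-/

open MeasureTheory ProbabilityTheory Filter Topology
open scoped ENNReal

namespace Pool.Agent.Results.MP_77deba_pr.NotHolder

open HExit

/-- There is a unimodular random rooted simple one-ended planar triangulation, almost surely circle
packed in the unit disc, with square integrable degree of the root, for which it is not true that
almost surely the exit measure of simple random walk is Hölder continuous. -/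
theorem result : ∃ (Ω V : Type) (_ : MeasurableSpace Ω) (_ : MeasurableSpace V)
    (_ : DiscreteMeasurableSpace V) (_ : Countable V) (μ : Measure Ω) (G : Ω → SimpleGraph V)
    (ρ : Ω → V) (z : Ω → V → ℂ) (r : Ω → V → ℝ),
    IsProbabilityMeasure μ ∧ (∀ x y, MeasurableSet {ω | (G ω).Adj x y}) ∧ Measurable ρ ∧
    Unimodular μ G ρ ∧
    (∀ᵐ ω ∂μ, IsDiscPacking (comp (G ω) (ρ ω)) (G ω) (z ω) (r ω) ∧
      OneEnded (comp (G ω) (ρ ω)) (G ω) ∧ ∀ x, ((G ω).neighborSet x).Finite) ∧
    ∫⁻ ω, (((G ω).neighborSet (ρ ω)).encard : ℝ≥0∞) ^ 2 ∂μ < ∞ ∧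
    ¬ ∀ᵐ ω ∂μ, ∃ C c : ℝ, 0 < C ∧ 0 < c ∧ ∀ α l : ℝ, 0 < l → l ≤ 2 * Real.pi →
      exitProb (G ω) (ρ ω) (z ω) (arc α l) ≤ ENNReal.ofReal (C * l ^ c) :=
  final

end Pool.Agent.Results.MP_77deba_pr.NotHolder
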